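import Pool.Agent.Y269.RK.Trace

/-!
# The algebra is stably finite and not a matrix algebra
-/

set_option autoImplicit false

namespace Pool.Agent.Y494.RK

open Pool.Agent.Y269.RK

noncomputable section

variable {E : Type} [CStarAlgebra E] (M : Amb E)

/-- a limit trace -/
def D0 : SD := ⟨fun k => k, fun _ => pc 0, Filter.tendsto_id⟩

/-- the quadratic form of the trace -/
def qf (x : ↥(A0 M)) : ℝ := (trc M D0 (star (x : E) * (x : E))).re

lemma qf_nonneg (x : ↥(A0 M)) : 0 ≤ qf M x := trc_pos M D0 _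

lemma qf_zero : qf M 0 = 0 := by
  have h : star ((0 : ↥(A0 M)) : E) * ((0 : ↥(A0 M)) : E) = 0 := by
    show star (0 : E) * (0 : E) = 0
    rw [mul_zero]
  unfold qf
  rw [h, trc_zero, Complex.zero_re]

lemma qf_one : qf M 1 = 1 := by
  have h : star ((1 : ↥(A0 M)) : E) * ((1 : ↥(A0 M)) : E) = 1 := by
    show star (1 : E) * (1 : E) = 1
    rw [mul_one, star_one]
  unfold qf
  rw [h, trc_one, Complex.one_re]

lemma qf_mul_left (x y : ↥(A0 M)) : qf M (y * x) ≤ ‖(y : E)‖ ^ 2 * qf M x :=
  trc_mul_le M D0 (x : E) (y : E)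

lemma qf_star (x : ↥(A0 M)) : qf M (star x) = qf M x := by
  unfold qf
  have h : star ((star x : ↥(A0 M)) : E) * ((star x : ↥(A0 M)) : E) = (x : E) * star (x : E) := by
    show star (star (x : E)) * star (x : E) = _
    rw [star_star]
  rw [h, trc_comm M D0 x.2 (star_mem x.2)]

lemma qf_add_le (x y : ↥(A0 M)) : qf M (x + y) ≤ 2 * qf M x + 2 * qf M y := by
  have h : star ((x + y : ↥(A0 M)) : E) * ((x + y : ↥(A0 M)) : E) +
      star ((x - y : ↥(A0 M)) : E) * ((x - y : ↥(A0 M)) : E) =
      (star (x : E) * (x : E) + star (x : E) * (x : E)) +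
        (star (y : E) * (y : E) + star (y : E) * (y : E)) := by
    show star ((x : E) + (y : E)) * ((x : E) + (y : E)) +
      star ((x : E) - (y : E)) * ((x : E) - (y : E)) = _
    rw [star_add, star_sub]
    noncomm_ring
  have h2 := congrArg (fun z => (trc M D0 z).re) h
  simp only [trc_add, Complex.add_re] at h2
  have h3 := trc_pos M D0 ((x - y : ↥(A0 M)) : E)
  unfold qf
  linarith

/-- the null ideal -/
def nullI : TwoSidedIdeal ↥(A0 M) :=
  TwoSidedIdeal.mk' {x | qf M x = 0} (qf_zero M)
    (fun {x y} hx hy => by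
      have hx' : qf M x = 0 := hx
      have hy' : qf M y = 0 := hy
      have h := qf_add_le M x y
      have h0 := qf_nonneg M (x + y)
      show qf M (x + y) = 0
      rw [hx', hy'] at h
      linarith)
    (fun {x} hx => by
      have hx' : qf M x = 0 := hx
      show qf M (-x) = 0
      have h := qf_mul_left M x (-1)
      rw [hx', mul_zero, neg_one_mul] at h
      exact le_antisymm h (qf_nonneg M _))
    (fun {x y} hy => by
      have hy' : qf M y = 0 := hy
      show qf M (x * y) = 0
      have h := qf_mul_left M y x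
      rw [hy', mul_zero] at h
      exact le_antisymm h (qf_nonneg M _))
    (fun {x y} hx => by
      have hx' : qf M x = 0 := hx
      show qf M (x * y) = 0
      have h := qf_mul_left M (star x) (star y)
      rw [qf_star, hx', mul_zero, ← star_mul, qf_star] at h
      exact le_antisymm h (qf_nonneg M _))

lemma faithful {x : ↥(A0 M)} (hx : qf M x = 0) : x = 0 := by
  by_contra hx0
  have h1 : x ∈ nullI M := by
    unfold nullI
    rw [TwoSidedIdeal.mem_mk']
    exact hx
  have h2 := ideal_eq_top M (nullI M) h1 hx0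
  unfold nullI at h2
  rw [TwoSidedIdeal.mem_mk'] at h2
  have h3 : qf M 1 = 0 := h2
  rw [qf_one] at h3
  exact one_ne_zero h3

/-- the trace of an element of the algebra -/
def tre (x : ↥(A0 M)) : ℝ := (trc M D0 (x : E)).re

lemma tre_sum {ι : Type} (s : Finset ι) (f : ι → ↥(A0 M)) :
    tre M (∑ i ∈ s, f i) = ∑ i ∈ s, tre M (f i) := by
  unfold tre
  rw [AddSubmonoidClass.coe_finsetSum, trc_sum, Complex.re_sum]

lemma tre_sub (x y : ↥(A0 M)) : tre M (x - y) = tre M x - tre M y := by
  unfold tre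
  show (trc M D0 ((x : E) - (y : E))).re = _
  rw [trc_sub, Complex.sub_re]

lemma tre_one : tre M 1 = 1 := by
  unfold tre
  show (trc M D0 (1 : E)).re = _
  rw [trc_one, Complex.one_re]

lemma tre_star_mul (x : ↥(A0 M)) : tre M (star x * x) = qf M x := rfl

lemma tre_mul_star (x : ↥(A0 M)) : tre M (x * star x) = qf M x := by
  have h := tre_star_mul M (star x)
  rw [star_star, qf_star] at h
  exact h

theorem stably_finite : ∀ (n : ℕ) (v : Matrix (Fin n) (Fin n) ↥(A0 M)),
    star v * v = 1 → v * star v = 1 := by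
  intro n v hv
  set e : Matrix (Fin n) (Fin n) ↥(A0 M) := 1 - v * star v with he
  have hse : star e = e := by
    rw [he, star_sub, star_one, star_mul, star_star]
  have hee : star e * e = e := by
    rw [hse]
    have h1 : (v * star v) * (v * star v) = v * star v := by
      rw [mul_assoc, ← mul_assoc (star v) v, hv, one_mul]
    rw [he, sub_mul, mul_sub, mul_sub, h1, one_mul, mul_one, one_mul, sub_self, sub_zero]
  -- the trace of star x * x
  have hT : ∀ x : Matrix (Fin n) (Fin n) ↥(A0 M),
      ∑ i, tre M ((star x * x) i i) = ∑ i, ∑ j, qf M (x j i) := by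
    intro x
    refine Finset.sum_congr rfl fun i _ => ?_
    rw [Matrix.mul_apply, tre_sum]
    exact Finset.sum_congr rfl fun j _ => rfl
  have hT' : ∀ x : Matrix (Fin n) (Fin n) ↥(A0 M),
      ∑ i, tre M ((x * star x) i i) = ∑ i, ∑ j, qf M (x i j) := by
    intro x
    refine Finset.sum_congr rfl fun i _ => ?_
    rw [Matrix.mul_apply, tre_sum]
    exact Finset.sum_congr rfl fun j _ => tre_mul_star M (x i j)
  have h1 : ∑ i, tre M (e i i) = 0 := by
    have h2 : ∀ i, tre M (e i i) = 1 - tre M ((v * star v) i i) := by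
      intro i
      rw [he, Matrix.sub_apply, tre_sub, Matrix.one_apply_eq, tre_one]
    rw [Finset.sum_congr rfl fun i _ => h2 i, Finset.sum_sub_distrib, hT' v,
      Finset.sum_comm, ← hT v, hv]
    have h3 : ∀ i : Fin n, tre M ((1 : Matrix (Fin n) (Fin n) ↥(A0 M)) i i) = 1 := by
      intro i
      rw [Matrix.one_apply_eq, tre_one]
    rw [Finset.sum_congr rfl fun i _ => h3 i, sub_self]
  rw [← hee, hT e] at h1
  have h4 : ∀ i j, e j i = 0 := by
    intro i j
    have h5 := (Finset.sum_eq_zero_iff_of_nonneg (fun i _ =>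
      Finset.sum_nonneg fun j _ => qf_nonneg M (e j i))).mp h1 i (Finset.mem_univ i)
    have h6 := (Finset.sum_eq_zero_iff_of_nonneg (fun j _ => qf_nonneg M (e j i))).mp h5 j
      (Finset.mem_univ j)
    exact faithful M h6
  have h7 : e = 0 := by
    ext i j
    rw [h4 j i]
    rfl
  exact (sub_eq_zero.mp h7).symm

lemma diag_mem (L a : ℕ) (ha : a < nz L) : M.of (TC L onef a a) ∈ A0 M := by
  apply mem_A0
  rw [diag_eq M]
  refine sum_mem fun r _ => mul_mem (mul_mem (gen_mem M ha (nz_pos L) _ _) (e00_mem M L))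
    (gen_mem M (nz_pos L) ha _ _)

theorem nonelem : ∀ n : ℕ, IsEmpty (↥(A0 M) ≃⋆ₐ[ℂ] Matrix (Fin n) (Fin n) ℂ) := by
  intro n
  refine ⟨fun f => ?_⟩
  set L : ℕ := n * n with hL
  let g : Fin (nz L) → ↥(A0 M) := fun a => ⟨M.of (TC L onef a a), diag_mem M L a a.2⟩
  have hli : LinearIndependent ℂ g := by
    rw [Fintype.linearIndependent_iff]
    intro c hc j
    have h1 : ∑ i, c i * ent (TC L onef (i : ℕ) (i : ℕ) (pc 0)) j j = 0 := by
      have h2 := congrArg (fun x : ↥(A0 M) => ent (M.ev (pc 0) (x : E)) (j : ℕ) (j : ℕ)) hc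
      have h3 : ((∑ i, c i • g i : ↥(A0 M)) : E) = ∑ i, c i • M.of (TC L onef (i : ℕ) (i : ℕ)) := by
        rw [AddSubmonoidClass.coe_finsetSum]
        rfl
      simp only [h3, map_sum, map_smul] at h2
      have h4 : ∀ i : Fin (nz L), M.ev (pc 0) (M.of (TC L onef (i : ℕ) (i : ℕ))) =
          TC L onef (i : ℕ) (i : ℕ) (pc 0) := fun i => by
        obtain ⟨C, hC⟩ := BF.TC (L := L) onef_FN (i : ℕ) (i : ℕ)
        exact M.ev_of _ C hC _
      simp only [h4] at h2
      have h5 : ent (M.ev (pc 0) ((0 : ↥(A0 M)) : E)) (j : ℕ) (j : ℕ) = 0 := by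
        show ent (M.ev (pc 0) (0 : E)) (j : ℕ) (j : ℕ) = 0
        rw [map_zero, ent_zero]
      rw [h5] at h2
      rw [← h2]
      have h6 : ∀ (s : Finset (Fin (nz L))), ent (∑ i ∈ s, c i • TC L onef (i : ℕ) (i : ℕ) (pc 0))
          (j : ℕ) (j : ℕ) = ∑ i ∈ s, c i * ent (TC L onef (i : ℕ) (i : ℕ) (pc 0)) j j := by
        intro s
        induction s using Finset.induction_on with
        | empty => rw [Finset.sum_empty, Finset.sum_empty, ent_zero]
        | insert x s hx ih =>
          rw [Finset.sum_insert hx, Finset.sum_insert hx, ent_add, ent_smul, ih]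
      exact (h6 _).symm
    rw [Finset.sum_eq_single j] at h1
    · rw [TC_ent onef_FN (pc 0) j.2, if_pos ⟨rfl, rfl⟩] at h1
      have h7 : onef (pc 0) = 1 := rfl
      rwa [h7, mul_one] at h1
    · intro i _ hij
      rw [TC_ent onef_FN (pc 0) j.2, if_neg, mul_zero]
      rintro ⟨h8, _⟩
      exact hij (Fin.ext h8.symm)
    · intro h
      exact absurd (Finset.mem_univ j) h
  have hfd : Module.Finite ℂ ↥(A0 M) :=
    Module.Finite.equiv (f.toAlgEquiv.toLinearEquiv.symm)
  have hcard := hli.fintype_card_le_finrank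
  have hfr : Module.finrank ℂ ↥(A0 M) = n * n := by
    rw [f.toAlgEquiv.toLinearEquiv.finrank_eq]
    simp [Module.finrank_matrix]
  rw [Fintype.card_fin, hfr] at hcard
  have := lt_nz L
  omega

end

end Pool.Agent.Y494.RK
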